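import Pool.Agent.RelZ.Core
import Pool.Agent.RelU.Targets

/-!
# An oracle relative to which `UP ∩ coUP` is not null and `NP` has not measure one

As Pool.Agent.RelZ, but for `κ % 4 < 2` only the signed word `x true` may have a key (if the coin of `x` is
`true`), so the complement of the hidden language is not in `NP`. Paper proof: idea row 5452.
-/

set_option autoImplicit false

namespace Pool.Agent.RelJ

open MeasureTheory Set
open scoped ENNReal
open Pool.Agent.RelM (Lang Instr Cfg step run Halts Decides E1 E2 NP pair triple binVal outVal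
  Approx IsDensity str pre IsNullCover Null1 Null2 wq sq0 sq1 Asks hq code qb)
open Pool.Agent.RelO (lev st)
open Pool.Agent.RelS (Z Rl orcV orc acc Idx Om Dep mixP)
open Pool.Agent.RelU (NM coin key nn Old ms Wd pcode)
open Pool.Agent.RelY (Hl)
open Pool.Agent.RelZ (SS Vis)
open Pool.Agent.RelT (Fast)

/-- The signed word `x` has a key. -/
def sgn (ω : Om) (κ : ℕ) (x : List Bool) : Bool :=
  match x.getLast? with
  | none => false
  | some c => if κ % 4 < 2 then c && ω (κ, x.dropLast, [], 0) else c == ω (κ, x.dropLast, [], 0)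

/-- The world. -/
def zo (ω : Om) : Z := fun κ x y => sgn ω κ x && decide (y = key ω κ x)

/-- The oracle. -/
noncomputable def oo (ω : Om) : Lang := orc (fun _ => false) (zo ω)

/-- The oracle in which only the pairs `SS κ t` are visible. -/
noncomputable def ov (κ t : ℕ) (ω : Om) : Lang := orcV (SS κ t) (fun _ => false) (zo ω)

/-! ## The targets of the jobs

The measure `coin` and the key are those of RelU, `Vis`, `SS` those of RelZ, `Hl` is that of RelY. Prove
`theorem p_X : T_X` in `Pool/Agent/RelJ/P_X.lean`, namespace `Pool.Agent.RelJ`. -/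

/-- **HIT** (15 min). Edit of `RelZ/P_HIT.lean` (only `sgn` is different; it depends on the same coin). -/
def T_HIT : Prop := ∀ (κ t : ℕ) (Pr : List Instr) (X : Om → List Bool) (τ : ℕ),
  Dep (Vis κ t) X → (∀ ω, (X ω).length + τ < 2 ^ lev κ (str t)) →
  coin {ω | ∃ s ≤ τ, run (oo ω) Pr (X ω) s ≠ run (ov κ t ω) Pr (X ω) s}
    ≤ τ * (2⁻¹ : ℝ≥0∞) ^ (lev κ (str t) / 2)

/-- **NONX** (20 min; from T_HIT and `RelZ.T_FAIR`). Edit of `RelZ/P_NONB.lean` with the language
`fun x => xor c (Hl κ ω x)` instead of `Hl κ ω`: its bit at `str t` is `b` iff `Hl κ ω (str t) = xor c b`. -/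
def T_NONX : Prop := ∀ (c : Bool) (κ : ℕ) (Pr : List Instr) (T : ℕ → ℕ), Fast κ T →
  ∀ᵐ ω ∂coin, ¬ ∃ d : ℕ → List Bool → ℝ,
    IsNullCover d {fun x => xor c (Hl κ ω x)} ∧ Approx (oo ω) Pr T d

/-- **CLS** (15 min; from `RelZ.T_UPA`, `RelB.T_APP`). As `RelZ/P_RLZ.lean`. -/
def T_CLS : Prop := ∀ (G : Lang) (ω : Om) (κ : ℕ),
  (2 ≤ κ % 4 → Hl κ ω ∈ Pool.Agent.RelQ.UP (orc G (zo ω)) ∧
    (fun x => !Hl κ ω x) ∈ Pool.Agent.RelQ.UP (orc G (zo ω))) ∧
  (κ % 2 = 1 → Hl κ ω ∈ E1 (orc G (zo ω))) ∧ (κ % 2 = 0 → Hl κ ω ∈ E2 (orc G (zo ω)))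

/-- **FLP** (45 min; template `P_HIT.lean`). PROOF. Let `x = str t`, `a = (κ, x, [], 0)` (not in `Old j`, as
`nn j ≤ x.length ≤ lev κ x`), `τ₀`, `τ₁` the samples `mixP (Old j) ω τ` with the value of `a` changed to `false`, `true`. As `a` is
a fair coin, the probability is `1 / 2 * P(acc τ₀) + 1 / 2 * (1 - P(acc τ₁))`. If `τ₀` accepts, choose a witness `y`
(depends only on `oo τ₀`, hence not on the key coins of the pair `κ, x ++ [true]`, for which `zo τ₀` is `false`).
The oracles of `τ₀` and `τ₁` differ only at the word `wq κ (x ++ [true]) (key ..)` and at `sq1 κ (x ++ [true]) m` with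
`2 ^ lev ≤ m` (too long to be asked). So if the run of `y` is not the same with `τ₁`, one of the at most `qbs (ms j) _` words
asked in the run with `τ₀` is `wq κ (x ++ [true]) (key ..)`: for each the probability is at most `2 ^ -lev`, and
`lev κ (x ++ [true]) ≥ 2 * nn j`, `qbs (ms j) _ < 2 ^ nn j` (`RelU/ACC.lean` `qb_small`). So `P(acc τ₀) ≤ P(acc τ₁) + 1 / 2`. -/
def T_FLP : Prop := ∀ κ : ℕ, κ % 4 < 2 → ∀ (j t : ℕ) (ω : Om) (v : NM), t ∈ Wd j → v ∈ ms j →
  coin.real {τ | acc (oo (mixP (Old j) ω τ)) v (str t) ↔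
    Hl κ (mixP (Old j) ω τ) (str t) = false} ≤ 3 / 4

/-- **NIN** (30 min; from T_FLP, `RelU.T_DNS`). If not, for some machine `v` the set
`S = {ω | ∀ j ≥ 1, st j = e → (acc (oo ω) v (str (2 ^ nn j)) ↔ Hl κ ω (str (2 ^ nn j)) = false)}` (`pcode e = (v, v)`) is not null; it
is measurable (each condition depends on finitely many coins: all coins of the pairs of level at most
`qbs (ms j) _` and the coin of the word; `RelS.fd`, `meas_of_dep`). T_DNS with `ε = 1 / 8`, `m = 1` gives `j`, `ω` with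
`coin.real {τ | mixP (Old j) ω τ ∉ S} ≤ 1 / 8`, but by T_FLP it is at least `1 / 4` (`2 ^ nn j ∈ Wd j` for `1 ≤ j`). -/
def T_NIN : Prop := ∀ κ : ℕ, κ % 4 < 2 →
  ∀ᵐ ω ∂coin, (fun x => xor true (Hl κ ω x)) ∉ NP (oo ω)

end Pool.Agent.RelJ
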