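import Pool.Agent.RelK.MAIN5

/-!
# RelJ: the theorem
-/

set_option autoImplicit false

namespace Pool.Agent.RelJ

open MeasureTheory Set
open Pool.Agent.RelM (Lang Instr Decides E1 E2 NP Approx IsNullCover Null1 Null2)
open Pool.Agent.RelS (Rl orc Om)
open Pool.Agent.RelT (Fast)
open Pool.Agent.RelU (coin)
open Pool.Agent.RelY (Hl)
open Pool.Agent.RelQ (UP)
open Pool.Agent.RelZ (Large)
open Pool.Agent.RelK (not_null cpl)

/-- The hidden languages and their complements have no null covers. -/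
theorem nonx (hNX : T_NONX) (c : Bool) : ∀ᵐ ω ∂coin,
    (∀ (κ m : ℕ) (Pr : List Instr), Fast κ (fun l => (l + 2) ^ m) →
      ¬ ∃ d : ℕ → List Bool → ℝ, IsNullCover d {fun x => xor c (Hl κ ω x)} ∧
        Approx (oo ω) Pr (fun l => (l + 2) ^ m) d) ∧
    (∀ (κ m : ℕ) (Pr : List Instr), Fast κ (fun l => 2 ^ ((Nat.log 2 l + 2) ^ m)) →
      ¬ ∃ d : ℕ → List Bool → ℝ, IsNullCover d {fun x => xor c (Hl κ ω x)} ∧
        Approx (oo ω) Pr (fun l => 2 ^ ((Nat.log 2 l + 2) ^ m)) d) := by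
  have a1 : ∀ᵐ ω ∂coin, ∀ (κ m : ℕ) (Pr : List Instr),
      Fast κ (fun l => (l + 2) ^ m) →
      ¬ ∃ d : ℕ → List Bool → ℝ, IsNullCover d {fun x => xor c (Hl κ ω x)} ∧
        Approx (oo ω) Pr (fun l => (l + 2) ^ m) d := by
    refine ae_all_iff.2 fun κ => ae_all_iff.2 fun m => ae_all_iff.2 fun Pr => ?_
    by_cases h2 : Fast κ (fun l => (l + 2) ^ m)
    · filter_upwards [hNX c κ Pr _ h2] with ω hω _
      exact hω
    · exact Filter.Eventually.of_forall fun ω h => (h2 h).elim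
  have a2 : ∀ᵐ ω ∂coin, ∀ (κ m : ℕ) (Pr : List Instr),
      Fast κ (fun l => 2 ^ ((Nat.log 2 l + 2) ^ m)) →
      ¬ ∃ d : ℕ → List Bool → ℝ, IsNullCover d {fun x => xor c (Hl κ ω x)} ∧
        Approx (oo ω) Pr (fun l => 2 ^ ((Nat.log 2 l + 2) ^ m)) d := by
    refine ae_all_iff.2 fun κ => ae_all_iff.2 fun m => ae_all_iff.2 fun Pr => ?_
    by_cases h2 : Fast κ (fun l => 2 ^ ((Nat.log 2 l + 2) ^ m))
    · filter_upwards [hNX c κ Pr _ h2] with ω hω _
      exact hω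
    · exact Filter.Eventually.of_forall fun ω h => (h2 h).elim
  exact a1.and a2

/-- An oracle relative to which `UP ∩ coUP` is not null and `NP` has not measure one. -/
theorem main (hNX : T_NONX) (hNIN : T_NIN) (hCLS : T_CLS) : ∃ O : Lang,
    Large O {A | A ∈ UP O ∧ (fun x => !A x) ∈ UP O} ∧ Large O (NP O)ᶜ := by
  have h0 : ∀ᵐ ω ∂coin, ∀ κ, κ % 4 < 2 → (fun x => xor true (Hl κ ω x)) ∉ NP (oo ω) := by
    refine ae_all_iff.2 fun κ => ?_
    by_cases h : κ % 4 < 2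
    · filter_upwards [hNIN κ h] with ω hω _
      exact hω
    · exact Filter.Eventually.of_forall fun ω h' => (h h').elim
  obtain ⟨ω, ⟨h1, h2⟩, h3⟩ := (((nonx hNX false).and (nonx hNX true)).and h0).exists
  have h4 : ∀ κ, (fun x => xor false (Hl κ ω x)) = Hl κ ω := by
    intro κ
    funext x
    simp
  simp only [h4] at h1
  refine ⟨oo ω, ?_, ?_⟩
  · exact not_null (L := fun κ => Hl κ ω) (fun n => 4 * n + 3) (fun n => 4 * n + 2)
      (fun n => ⟨by omega, by omega, (hCLS _ ω _).1 (by omega)⟩)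
      (fun n => ⟨by omega, by omega, (hCLS _ ω _).1 (by omega)⟩)
      (fun κ hκ => (hCLS _ ω κ).2.1 hκ) (fun κ hκ => (hCLS _ ω κ).2.2 hκ) h1.1 h1.2
  · exact not_null (L := fun κ x => xor true (Hl κ ω x)) (fun n => 4 * n + 1) (fun n => 4 * n)
      (fun n => ⟨by omega, by omega, h3 _ (by omega)⟩)
      (fun n => ⟨by omega, by omega, h3 _ (by omega)⟩)
      (fun κ hκ => (cpl _ _).1 ((hCLS _ ω κ).2.1 hκ))
      (fun κ hκ => (cpl _ _).2 ((hCLS _ ω κ).2.2 hκ)) h2.1 h2.2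

end Pool.Agent.RelJ
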