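import Pool.Agent.RelJ.Core
import Pool.Agent.RelU.NN
import Pool.Agent.RelB.P_APP
import Pool.Agent.RelT.NPR

/-!
# The classes of the hidden languages
-/

set_option autoImplicit false

namespace Pool.Agent.RelJ

open Pool.Agent.RelO (lev)
open Pool.Agent.RelM (Lang E1 E2)
open Pool.Agent.RelS (Z Rl orcV orc Om)
open Pool.Agent.RelU (key key_length)
open Pool.Agent.RelY (Hl)

namespace CLS_

theorem rlz (ω : Om) (κ : ℕ) (x : List Bool) : Rl (zo ω) κ x = sgn ω κ x := by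
  classical
  unfold Rl
  rw [Bool.eq_iff_iff]
  simp only [decide_eq_true_eq]
  constructor
  · rintro ⟨y, _, hy⟩
    unfold zo at hy
    rw [Bool.and_eq_true] at hy
    exact hy.1
  · intro h
    refine ⟨key ω κ x, key_length ω κ x, ?_⟩
    unfold zo
    simp [h]

theorem sgn_snoc (ω : Om) (κ : ℕ) (x : List Bool) (c : Bool) :
    sgn ω κ (x ++ [c]) =
      if κ % 4 < 2 then c && ω (κ, x, [], 0) else c == ω (κ, x, [], 0) := by
  unfold sgn
  simp

theorem hl_eq (ω : Om) (κ : ℕ) : Hl κ ω = fun x => Rl (zo ω) κ (x ++ [true]) := by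
  funext x
  rw [rlz, sgn_snoc]
  show ω (κ, x, [], 0) = _
  cases ω (κ, x, [], 0) <;> split_ifs <;> rfl

theorem hl_not (ω : Om) (κ : ℕ) (h : 2 ≤ κ % 4) :
    (fun x => !Hl κ ω x) = fun x => Rl (zo ω) κ (x ++ [false]) := by
  funext x
  rw [rlz, sgn_snoc, if_neg (by omega)]
  show (!ω (κ, x, [], 0)) = _
  cases ω (κ, x, [], 0) <;> rfl

end CLS_

open CLS_ in
theorem p_CLS_of (hUPA : Pool.Agent.RelZ.T_UPA) (hAPP : Pool.Agent.RelB.T_APP) : T_CLS := by
  intro G ω κ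
  have h1 : ∀ x y y' : List Bool, zo ω κ x y = true → zo ω κ x y' = true → y = y' := by
    intro x y y' h h'
    unfold zo at h h'
    simp only [Bool.and_eq_true, decide_eq_true_eq] at h h'
    rw [h.2, h'.2]
  refine ⟨fun h2 => ?_, fun h => ?_, fun h => ?_⟩
  · rw [hl_not ω κ h2, hl_eq]
    exact ⟨hUPA G (zo ω) κ [true] h1, hUPA G (zo ω) κ [false] h1⟩
  · rw [hl_eq]
    exact (hAPP _ _ [true]).1 (Pool.Agent.RelT.e1r _ _ κ h)
  · rw [hl_eq]
    exact (hAPP _ _ [true]).2 (Pool.Agent.RelT.e2r _ _ κ h)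

end Pool.Agent.RelJ
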