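import Pool.Agent.RelJ.Core
import Pool.Agent.RelU.NN
import Pool.Agent.RelU.ACC
import Pool.Agent.RelM.HIT
import Pool.Agent.RelM.LOC

/-!
# Machines do not find the bit of a word without a key
-/

set_option autoImplicit false

namespace Pool.Agent.RelJ

open MeasureTheory Set
open scoped ENNReal
open Pool.Agent.RelM (Lang Instr Cfg step run Halts pair str pre wq sq0 sq1 Asks hq qb)
open Pool.Agent.RelO (lev levmono levfin)
open Pool.Agent.RelS (Z Rl orcV orc acc Idx Om Dep mixP fd ovis ocut oloc mixP_pos mixP_neg)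
open Pool.Agent.RelU (NM coin key key_length indep coin_cyl coin_one nn Old ms Wd qb_small nnge)
open Pool.Agent.RelB (qbs acc_congr qb_le_qbs ask_len)
open Pool.Agent.RelY (Hl)

namespace FLP_

/-- Events of different coins are independent. -/
lemma ind {p : Set Idx} {C A : Set Om} (hC : MeasurableSet C) (hA : MeasurableSet A)
    (dC : ∀ ω ω' : Om, (∀ a ∈ p, ω a = ω' a) → (ω ∈ C ↔ ω' ∈ C))
    (dA : ∀ ω ω' : Om, (∀ a ∈ pᶜ, ω a = ω' a) → (ω ∈ A ↔ ω' ∈ A)) :
    coin (A ∩ C) = coin C * coin A := by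
  have hCd : Dep p (C.indicator (1 : Om → ℝ≥0∞)) := by
    intro ω ω' h
    have hC := dC ω ω' h
    by_cases hω : ω ∈ C
    · rw [Set.indicator_of_mem hω, Set.indicator_of_mem (hC.1 hω)]
      rfl
    · rw [Set.indicator_of_notMem hω, Set.indicator_of_notMem fun h => hω (hC.2 h)]
  have hAd : Dep pᶜ (A.indicator (1 : Om → ℝ≥0∞)) := by
    intro ω ω' h
    have hA := dA ω ω' h
    by_cases hω : ω ∈ A
    · rw [Set.indicator_of_mem hω, Set.indicator_of_mem (hA.1 hω)]
      rfl
    · rw [Set.indicator_of_notMem hω, Set.indicator_of_notMem fun h => hω (hA.2 h)]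
  have hi := indep (p := p) (F := C.indicator 1) (G := A.indicator 1)
    (measurable_one.indicator hC) (measurable_one.indicator hA) hCd hAd
  rw [lintegral_indicator_one hC, lintegral_indicator_one hA] at hi
  have hmul : ∀ ω : Om, C.indicator (1 : Om → ℝ≥0∞) ω * A.indicator 1 ω =
      (A ∩ C).indicator 1 ω := by
    intro ω
    by_cases ha : ω ∈ A <;> by_cases hb : ω ∈ C <;> simp [Set.indicator, ha, hb]
  simp only [hmul] at hi
  rw [lintegral_indicator_one (hA.inter hC)] at hi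
  exact hi

/-- The world depends only on the sign coin and the coins of the key. -/
lemma zo_congr {ω ω' : Om} {κ : ℕ} {x : List Bool}
    (h0 : x ≠ [] → ω (κ, x.dropLast, [], 0) = ω' (κ, x.dropLast, [], 0))
    (h : ∀ i, i < lev κ x → ω (κ, x, [], i + 1) = ω' (κ, x, [], i + 1)) (y : List Bool) :
    zo ω κ x y = zo ω' κ x y := by
  have h1 : key ω κ x = key ω' κ x := by
    unfold key
    refine List.map_congr_left fun i hi => ?_
    exact h i (List.mem_range.1 hi)
  have h3 : sgn ω κ x = sgn ω' κ x := by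
    unfold sgn
    rcases eq_or_ne x [] with rfl | hx
    · rfl
    · rw [List.getLast?_eq_some_getLast hx]
      simp only [h0 hx]
  unfold zo
  rw [h1, h3]

/-- The sample with the coin of the word `x` changed to `b`. -/
def fl (κ : ℕ) (x : List Bool) (b : Bool) (ρ : Om) : Om :=
  fun a => if a = (κ, x, [], 0) then b else ρ a

lemma fl_at (κ : ℕ) (x : List Bool) (b : Bool) (ρ : Om) : fl κ x b ρ (κ, x, [], 0) = b :=
  if_pos rfl

lemma fl_ne {κ : ℕ} {x : List Bool} (b : Bool) (ρ : Om) {a : Idx} (h : a ≠ (κ, x, [], 0)) :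
    fl κ x b ρ a = ρ a := if_neg h

lemma fl_self {κ : ℕ} {x : List Bool} {b : Bool} {ρ : Om} (h : ρ (κ, x, [], 0) = b) :
    fl κ x b ρ = ρ := by
  funext a
  by_cases ha : a = (κ, x, [], 0)
  · rw [ha, fl_at, h]
  · exact fl_ne b ρ ha

lemma key_fl (κ κ' : ℕ) (x x' : List Bool) (b : Bool) (ρ : Om) :
    key (fl κ x b ρ) κ' x' = key ρ κ' x' := by
  unfold key
  refine List.map_congr_left fun i _ => fl_ne b ρ ?_
  intro h
  have := congrArg (fun a : Idx => a.2.2.2) h
  simp at this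

/-- Without the coin, the pair `κ, x true` has no key. -/
lemma zo_false {κ : ℕ} (hκ : κ % 4 < 2) (x : List Bool) (ρ : Om) (y : List Bool) :
    zo (fl κ x false ρ) κ (x ++ [true]) y = false := by
  have h : sgn (fl κ x false ρ) κ (x ++ [true]) = false := by
    unfold sgn
    rw [List.getLast?_append]
    simp [hκ, fl_at]
  unfold zo
  rw [h]
  rfl

/-- The other pairs do not depend on the coin. -/
lemma zo_other {κ : ℕ} (hκ : κ % 4 < 2) (x : List Bool) (ρ : Om) {κ' : ℕ} {x' : List Bool}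
    (h : ¬ (κ' = κ ∧ x' = x ++ [true])) (y : List Bool) :
    zo (fl κ x true ρ) κ' x' y = zo (fl κ x false ρ) κ' x' y := by
  by_cases hx : x' ≠ [] ∧ κ' = κ ∧ x'.dropLast = x
  · obtain ⟨h1, rfl, h3⟩ := hx
    have h4 : x' = x ++ [x'.getLast h1] := by
      rw [← h3]
      exact (List.dropLast_append_getLast h1).symm
    have h5 : x'.getLast h1 = false := by
      by_contra hc
      rw [Bool.not_eq_false] at hc
      rw [hc] at h4
      exact h ⟨rfl, h4⟩
    have h6 : ∀ b, sgn (fl κ' x b ρ) κ' x' = false := by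
      intro b
      unfold sgn
      rw [List.getLast?_eq_some_getLast h1]
      simp [hκ, h5]
    unfold zo
    rw [h6, h6]
    rfl
  · refine zo_congr (fun hne => ?_) (fun i _ => ?_) y
    · have : ((κ', x'.dropLast, [], 0) : Idx) ≠ (κ, x, [], 0) := by
        intro he
        simp only [Prod.mk.injEq, and_true] at he
        exact hx ⟨hne, he.1, he.2⟩
      rw [fl_ne _ _ this, fl_ne _ _ this]
    · have : ((κ', x', [], i + 1) : Idx) ≠ (κ, x, [], 0) := by
        intro he
        simp at he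
      rw [fl_ne _ _ this, fl_ne _ _ this]

/-- Short words with different answers contain the key. -/
lemma diff {κ : ℕ} (hκ : κ % 4 < 2) (x : List Bool) (ρ : Om) (q : List Bool)
    (hq : q.length < 2 ^ lev κ (x ++ [true]))
    (h : oo (fl κ x true ρ) q ≠ oo (fl κ x false ρ) q) :
    q = wq κ (x ++ [true]) (key ρ κ (x ++ [true])) := by
  have hS : ∀ κ' x' y, ¬ (κ' = κ ∧ x' = x ++ [true]) → y.length = lev κ' x' →
      zo (fl κ x true ρ) κ' x' y = zo (fl κ x false ρ) κ' x' y :=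
    fun κ' x' y h1 _ => zo_other hκ x ρ h1 y
  have hlong : ∀ κ' x' m, ¬¬ (κ' = κ ∧ x' = x ++ [true]) → q = sq1 κ' x' m →
      2 ^ lev κ' x' ≤ m → False := by
    intro κ' x' m h1 h2 h3
    obtain ⟨rfl, rfl⟩ := not_not.1 h1
    have h4 := Pool.Agent.RelM.HitJob.le_length_sq1 κ' (x ++ [true]) m
    rw [← h2] at h4
    omega
  have h0 : oo (fl κ x false ρ) q = orcV (fun κ' x' => ¬ (κ' = κ ∧ x' = x ++ [true]))
      (fun _ => false) (zo (fl κ x false ρ)) q := by
    by_contra hne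
    rcases ocut (fun κ' x' => ¬ (κ' = κ ∧ x' = x ++ [true])) (fun _ => false) (fun _ => false)
      (zo (fl κ x false ρ)) (zo (fl κ x false ρ)) (fun _ _ _ _ _ => rfl) q hne with
      ⟨κ', x', y', h1, _, _, h4⟩ | ⟨κ', x', m', h1, h2, h3⟩ | ⟨u, _, hu⟩
    · obtain ⟨rfl, rfl⟩ := not_not.1 h1
      rw [zo_false hκ] at h4
      exact Bool.false_ne_true h4
    · exact hlong κ' x' m' h1 h2 h3
    · exact hu rfl
  rw [h0] at h
  rcases ocut (fun κ' x' => ¬ (κ' = κ ∧ x' = x ++ [true])) (fun _ => false) (fun _ => false)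
    (zo (fl κ x true ρ)) (zo (fl κ x false ρ)) hS q h with
    ⟨κ', x', y', h1, _, h3, h4⟩ | ⟨κ', x', m', h1, h2, h3⟩ | ⟨u, _, hu⟩
  · obtain ⟨rfl, rfl⟩ := not_not.1 h1
    unfold zo at h4
    rw [Bool.and_eq_true, decide_eq_true_eq, key_fl] at h4
    rw [h3, h4.2]
  · exact (hlong κ' x' m' h1 h2 h3).elim
  · exact (hu rfl).elim

/-- The coins that matter for words of length at most `m`. -/
def Fs (m : ℕ) : Set Idx :=
  {a | lev a.1 a.2.1 ≤ m ∧ a.2.2.1 = [] ∧ a.2.2.2 ≤ m}

lemma Fs_fin (m : ℕ) : (Fs m).Finite := by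
  have h1 : (Set.Iic m ×ˢ ({x : List Bool | x.length ≤ m} ×ˢ
      (({[]} : Set (List Bool)) ×ˢ Set.Iic m)) : Set Idx).Finite :=
    (Set.finite_Iic _).prod ((List.finite_length_le Bool _).prod
      ((Set.finite_singleton _).prod (Set.finite_Iic _)))
  refine h1.subset ?_
  rintro ⟨κ₁, x, y, i⟩ ⟨h2, h3, h4⟩
  obtain ⟨h5, h6⟩ := levfin κ₁ x m h2
  exact ⟨h5, h6, h3, h4⟩

/-- Answers to short words depend on finitely many coins. -/
lemma oo_loc {ρ ρ' : Om} {m : ℕ} (h : ∀ a ∈ Fs m, ρ a = ρ' a) {q : List Bool}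
    (hq : q.length ≤ m) : oo ρ q = oo ρ' q := by
  refine oloc _ _ _ _ _ m ?_ (fun _ _ => rfl) q hq
  intro κ' x' y h1 _
  refine zo_congr (fun _ => h _ ⟨?_, rfl, Nat.zero_le _⟩) (fun i hi => h _ ⟨h1, rfl, ?_⟩) y
  · show lev κ' x'.dropLast ≤ m
    refine le_trans (levmono _ _ _ ?_) h1
    rw [List.length_dropLast]
    exact Nat.sub_le _ _
  · show i + 1 ≤ m
    have : lev κ' x' ≤ m := h1
    omega

/-- The coins of the key. -/
def kc (κ' : ℕ) (x' : List Bool) : Finset Idx :=
  (Finset.range (lev κ' x')).image fun i => ((κ', x', [], i + 1) : Idx)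

lemma kc_card (κ' : ℕ) (x' : List Bool) : (kc κ' x').card = lev κ' x' := by
  unfold kc
  rw [Finset.card_image_of_injective, Finset.card_range]
  intro i j h
  have := congrArg (fun a : Idx => a.2.2.2) h
  simpa using this

/-- The values of the coins of the key `y`. -/
def kv (y : List Bool) : Idx → Bool := fun a => y.getD (a.2.2.2 - 1) false

lemma key_cyl {ω : Om} {κ' : ℕ} {x' y : List Bool} (h : key ω κ' x' = y) :
    ω ∈ {ω : Om | ∀ a ∈ kc κ' x', ω a = kv y a} := by
  intro a ha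
  unfold kc at ha
  obtain ⟨i, hi, rfl⟩ := Finset.mem_image.1 ha
  have hi' := Finset.mem_range.1 hi
  unfold kv
  rw [← h]
  show ω (κ', x', [], i + 1) = (key ω κ' x').getD (i + 1 - 1) false
  rw [Nat.add_sub_cancel, List.getD_eq_getElem _ _ (by rw [key_length]; exact hi')]
  unfold key
  rw [List.getElem_map, List.getElem_range]

/-- The answers without the key do not depend on the coins of the key. -/
lemma oo_key {κ : ℕ} (hκ : κ % 4 < 2) {x : List Bool} {ρ ρ' : Om} {m : ℕ}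
    (h : ∀ a ∈ Fs m, a ∉ kc κ (x ++ [true]) → ρ a = ρ' a) {q : List Bool}
    (hq : q.length ≤ m) : oo (fl κ x false ρ) q = oo (fl κ x false ρ') q := by
  refine oloc _ _ _ _ _ m ?_ (fun _ _ => rfl) q hq
  intro κ' x' y h1 _
  by_cases hp : κ' = κ ∧ x' = x ++ [true]
  · obtain ⟨rfl, rfl⟩ := hp
    rw [zo_false hκ, zo_false hκ]
  have h2 : ∀ a ∈ Fs m, a ∉ kc κ (x ++ [true]) → fl κ x false ρ a = fl κ x false ρ' a := by
    intro a ha hk
    by_cases hb : a = (κ, x, [], 0)
    · rw [hb, fl_at, fl_at]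
    · rw [fl_ne _ _ hb, fl_ne _ _ hb]
      exact h a ha hk
  refine zo_congr (fun _ => h2 _ ⟨?_, rfl, Nat.zero_le _⟩ ?_)
    (fun i hi => h2 _ ⟨h1, rfl, ?_⟩ ?_) y
  · show lev κ' x'.dropLast ≤ m
    refine le_trans (levmono _ _ _ ?_) h1
    rw [List.length_dropLast]
    exact Nat.sub_le _ _
  · intro hk
    obtain ⟨i, _, hi⟩ := Finset.mem_image.1 hk
    have := congrArg (fun a : Idx => a.2.2.2) hi
    simp at this
  · show i + 1 ≤ m
    have : lev κ' x' ≤ m := h1
    omega
  · intro hk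
    obtain ⟨i', _, hi'⟩ := Finset.mem_image.1 hk
    simp only [Prod.mk.injEq] at hi'
    exact hp ⟨hi'.1.symm, hi'.2.1.symm⟩

open Classical in
/-- A witness. -/
noncomputable def wt (v : NM) (x : List Bool) (O : Lang) : List Bool :=
  if h : acc O v x then h.choose else []

lemma wt_spec {v : NM} {x : List Bool} {O : Lang} (h : acc O v x) :
    (wt v x O).length ≤ (x.length + 2) ^ v.2.1 ∧
      (run O v.1 (pair x (wt v x O)) ((x.length + 2) ^ v.2.2)).st 1 = [true] := by
  unfold wt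
  rw [dif_pos h]
  exact h.choose_spec

/-- The answers to short words without the key. -/
noncomputable def Ot (κ : ℕ) (x : List Bool) (m : ℕ) (ρ : Om) : Lang := fun q =>
  decide (q.length ≤ m) && oo (fl κ x false ρ) q

lemma Ot_short {κ : ℕ} {x : List Bool} {m : ℕ} {ρ : Om} {q : List Bool} (h : q.length ≤ m) :
    Ot κ x m ρ q = oo (fl κ x false ρ) q := by
  unfold Ot
  rw [decide_eq_true h, Bool.true_and]

lemma Ot_loc {κ : ℕ} (hκ : κ % 4 < 2) {x : List Bool} {ρ ρ' : Om} {m : ℕ}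
    (h : ∀ a ∈ Fs m, a ∉ kc κ (x ++ [true]) → ρ a = ρ' a) : Ot κ x m ρ = Ot κ x m ρ' := by
  funext q
  by_cases hq : q.length ≤ m
  · rw [Ot_short hq, Ot_short hq]
    exact oo_key hκ h hq
  · unfold Ot
    rw [decide_eq_false hq]
    rfl

/-- The key is hit with small probability. -/
lemma hit {κ : ℕ} (hκ : κ % 4 < 2) (x : List Bool) (m : ℕ) (p : Set Idx) (ω : Om)
    (P : List Instr) (X : Lang → List Bool) (T : ℕ) :
    coin {τ | ∃ s < T, Asks (Ot κ x m (mixP p ω τ)) P (X (Ot κ x m (mixP p ω τ))) s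
      (wq κ (x ++ [true]) (key τ κ (x ++ [true])))} ≤
      T * (2⁻¹ : ℝ≥0∞) ^ lev κ (x ++ [true]) := by
  have hO : ∀ τ τ' : Om, (∀ a ∈ Fs m, a ∉ kc κ (x ++ [true]) → τ a = τ' a) →
      Ot κ x m (mixP p ω τ) = Ot κ x m (mixP p ω τ') := by
    intro τ τ' h
    refine Ot_loc hκ fun a ha hk => ?_
    by_cases hp : a ∈ p
    · rw [mixP_pos hp, mixP_pos hp]
    · rw [mixP_neg hp, mixP_neg hp]
      exact h a ha hk
  let A : ℕ → List Bool → Set Om := fun s y =>
    {τ | Asks (Ot κ x m (mixP p ω τ)) P (X (Ot κ x m (mixP p ω τ))) s (wq κ (x ++ [true]) y)}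
  let C : List Bool → Set Om := fun y => {τ | ∀ a ∈ kc κ (x ++ [true]), τ a = kv y a}
  have hAd : ∀ s y (τ τ' : Om), (∀ a ∈ Fs m, a ∉ kc κ (x ++ [true]) → τ a = τ' a) →
      (τ ∈ A s y ↔ τ' ∈ A s y) := by
    intro s y τ τ' h
    show Asks _ P (X _) s _ ↔ Asks _ P (X _) s _
    rw [hO τ τ' h]
  have hAm : ∀ s y, MeasurableSet (A s y) := fun s y =>
    fd (Fs_fin m) fun τ τ' h => hAd s y τ τ' fun a ha _ => h a ha
  have hCd : ∀ y (τ τ' : Om), (∀ a ∈ (kc κ (x ++ [true]) : Set Idx), τ a = τ' a) →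
      (τ ∈ C y ↔ τ' ∈ C y) := by
    intro y τ τ' h
    show (∀ a ∈ kc κ (x ++ [true]), τ a = kv y a) ↔ (∀ a ∈ kc κ (x ++ [true]), τ' a = kv y a)
    refine forall₂_congr fun a ha => ?_
    rw [h a ha]
  have hCm : ∀ y, MeasurableSet (C y) := fun y => fd (Finset.finite_toSet _) (hCd y)
  have hCc : ∀ y, coin (C y) = (2⁻¹ : ℝ≥0∞) ^ lev κ (x ++ [true]) := by
    intro y
    have := coin_cyl (kc κ (x ++ [true])) (kv y)
    rw [kc_card] at this
    exact this
  have hAC : ∀ s y, coin (A s y ∩ C y) =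
      (2⁻¹ : ℝ≥0∞) ^ lev κ (x ++ [true]) * coin (A s y) := by
    intro s y
    rw [ind (hCm y) (hAm s y) (hCd y) fun τ τ' h => hAd s y τ τ' fun a _ hk => h a hk, hCc]
  have hsub : {τ | ∃ s < T, Asks (Ot κ x m (mixP p ω τ)) P (X (Ot κ x m (mixP p ω τ))) s
      (wq κ (x ++ [true]) (key τ κ (x ++ [true])))} ⊆
      ⋃ s ∈ Finset.range T, ⋃ y : List Bool, (A s y ∩ C y) := by
    rintro τ ⟨s, hs, h⟩
    simp only [Set.mem_iUnion, Finset.mem_range]
    exact ⟨s, hs, key τ κ (x ++ [true]), h, key_cyl rfl⟩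
  have hdisj : ∀ s, Pairwise (Function.onFun Disjoint (A s)) := by
    intro s i j hij
    rw [Function.onFun, Set.disjoint_left]
    intro τ h1 h2
    apply hij
    exact (Pool.Agent.RelM.HitJob.wq_inj' (Pool.Agent.RelM.one _ _ _ _ _ _ h1 h2)).2.2
  refine (measure_mono hsub).trans ?_
  calc coin (⋃ s ∈ Finset.range T, ⋃ y : List Bool, (A s y ∩ C y))
      ≤ ∑ s ∈ Finset.range T, coin (⋃ y : List Bool, (A s y ∩ C y)) :=
        measure_biUnion_finset_le _ _
    _ ≤ ∑ _s ∈ Finset.range T, (2⁻¹ : ℝ≥0∞) ^ lev κ (x ++ [true]) := by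
        refine Finset.sum_le_sum fun s _ => ?_
        calc coin (⋃ y : List Bool, (A s y ∩ C y))
            ≤ ∑' y : List Bool, coin (A s y ∩ C y) := measure_iUnion_le _
          _ = ∑' y, (2⁻¹ : ℝ≥0∞) ^ lev κ (x ++ [true]) * coin (A s y) :=
              tsum_congr fun y => hAC s y
          _ = (2⁻¹ : ℝ≥0∞) ^ lev κ (x ++ [true]) * coin (⋃ y, A s y) := by
              rw [ENNReal.tsum_mul_left, measure_iUnion (hdisj s) fun y => hAm s y]
          _ ≤ (2⁻¹ : ℝ≥0∞) ^ lev κ (x ++ [true]) * 1 := by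
              gcongr
              exact prob_le_one
          _ = (2⁻¹ : ℝ≥0∞) ^ lev κ (x ++ [true]) := mul_one _
    _ = T * (2⁻¹ : ℝ≥0∞) ^ lev κ (x ++ [true]) := by
        rw [Finset.sum_const, Finset.card_range, nsmul_eq_mul]

/-- If only the machine without the key accepts, it has asked the key. -/
lemma acc_diff {κ : ℕ} (hκ : κ % 4 < 2) (x : List Bool) (v : NM) (ρ : Om)
    (hm : qb v x.length < 2 ^ lev κ (x ++ [true]))
    (h0 : acc (oo (fl κ x false ρ)) v x) (h1 : ¬ acc (oo (fl κ x true ρ)) v x) :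
    ∃ s < (x.length + 2) ^ v.2.2, Asks (Ot κ x (qb v x.length) ρ) v.1
      (pair x (wt v x (Ot κ x (qb v x.length) ρ))) s
      (wq κ (x ++ [true]) (key ρ κ (x ++ [true]))) := by
  have h2 : acc (Ot κ x (qb v x.length) ρ) v x :=
    (acc_congr fun q hq => (Ot_short hq).symm).1 h0
  obtain ⟨h3, h4⟩ := wt_spec h2
  by_contra hcon
  push Not at hcon
  apply h1
  refine ⟨_, h3, ?_⟩
  rw [Pool.Agent.RelM.loc (Ot κ x (qb v x.length) ρ) (oo (fl κ x true ρ)) v.1 _
    ((x.length + 2) ^ v.2.2) (fun s hs q hq => ?_) _ le_rfl]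
  · exact h4
  · have h5 := ask_len h3 hs hq
    rw [Ot_short h5]
    by_contra hne
    have h6 := diff hκ x ρ q (lt_of_le_of_lt h5 hm) fun h => hne h.symm
    rw [h6] at hq
    exact hcon s hs hq

end FLP_

open FLP_ in
/-- A machine does not find the bit of a word. -/
theorem p_FLP : T_FLP := by
  intro κ hκ j t ω v ht hv
  obtain ⟨-, hqs, -⟩ := qb_small ht
  have hn : 2 ≤ nn j := le_trans (by omega) (nnge j)
  have hxn : nn j ≤ (str t).length := by
    rw [Pool.Agent.RelM.strlen]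
    have h1 : 2 ^ nn j ≤ t := (Finset.mem_Ico.1 ht).1
    exact Nat.le_log_of_pow_le (by omega) (by omega)
  generalize str t = x at hqs hxn ⊢
  have hlen : (x ++ [true]).length = x.length + 1 := by simp
  have hL : 2 * nn j ≤ lev κ (x ++ [true]) := by
    unfold lev
    rw [hlen]
    split_ifs with h
    · calc 2 * nn j ≤ (x.length + 1 + 2) * (x.length + 1 + 2) :=
            Nat.mul_le_mul (by omega) (by omega)
        _ = (x.length + 1 + 2) ^ 2 := by ring
        _ ≤ (x.length + 1 + 2) ^ (κ + 2) := Nat.pow_le_pow_right (by omega) (by omega)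
    · exact Nat.mul_le_mul (by omega) (by omega)
  have hLx : nn j ≤ lev κ x := hxn.trans (levfin κ x _ le_rfl).2
  have ha : ((κ, x, [], 0) : Idx) ∉ Old j := fun h => absurd h.1 (not_lt.2 hLx)
  have hkc : ∀ a ∈ kc κ (x ++ [true]), a ∉ Old j := by
    intro a hk h
    obtain ⟨i, _, rfl⟩ := Finset.mem_image.1 hk
    have h1 : lev κ (x ++ [true]) < nn j := h.1
    omega
  have hQ : qb v x.length < 2 ^ nn j := lt_of_le_of_lt (qb_le_qbs hv _) hqs
  have hQL : qb v x.length < 2 ^ lev κ (x ++ [true]) :=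
    hQ.trans_le (Nat.pow_le_pow_right (by norm_num) (by omega))
  have hT : (x.length + 2) ^ v.2.2 ≤ 2 ^ nn j :=
    (Nat.pow_le_pow_right (by omega) (by omega)).trans hQ.le
  -- the events of acceptance
  let A : Bool → Set Om := fun b => {τ | acc (oo (fl κ x b (mixP (Old j) ω τ))) v x}
  have hAd : ∀ b (τ τ' : Om), (∀ a ∈ Fs (qb v x.length), a ≠ (κ, x, [], 0) → τ a = τ' a) →
      (τ ∈ A b ↔ τ' ∈ A b) := by
    intro b τ τ' h
    refine acc_congr fun q hq => oo_loc (fun a h1 => ?_) hq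
    by_cases hb : a = (κ, x, [], 0)
    · rw [hb, fl_at, fl_at]
    · rw [fl_ne _ _ hb, fl_ne _ _ hb]
      by_cases hp : a ∈ Old j
      · rw [mixP_pos hp, mixP_pos hp]
      · rw [mixP_neg hp, mixP_neg hp]
        exact h a h1 hb
  have hAm : ∀ b, MeasurableSet (A b) := fun b =>
    fd (Fs_fin (qb v x.length)) fun τ τ' h => hAd b τ τ' fun a ha _ => h a ha
  have hBd : ∀ b (τ τ' : Om), (∀ a ∈ ({((κ, x, [], 0) : Idx)} : Set Idx), τ a = τ' a) →
      (τ ∈ {τ : Om | τ (κ, x, [], 0) = b} ↔ τ' ∈ {τ : Om | τ (κ, x, [], 0) = b}) := by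
    intro b τ τ' h
    show τ _ = b ↔ τ' _ = b
    rw [h _ rfl]
  have hBm : ∀ b : Bool, MeasurableSet {τ : Om | τ (κ, x, [], 0) = b} := fun b =>
    fd (Set.finite_singleton _) (hBd b)
  have hB : ∀ b : Bool, coin.real {τ : Om | τ (κ, x, [], 0) = b} = 1 / 2 := by
    intro b
    rw [measureReal_def, coin_one]
    norm_num
  have i0 : coin.real (A false ∩ {τ : Om | τ (κ, x, [], 0) = false}) =
      1 / 2 * coin.real (A false) := by
    rw [← hB false, measureReal_def, ind (hBm false) (hAm false) (hBd false)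
      fun τ τ' h => hAd false τ τ' fun a _ hb => h a hb, ENNReal.toReal_mul]
    rfl
  have i1 : coin.real ((A true)ᶜ ∩ {τ : Om | τ (κ, x, [], 0) = true}) =
      1 / 2 * coin.real (A true)ᶜ := by
    rw [← hB true, measureReal_def, ind (hBm true) (hAm true).compl (hBd true)
      fun τ τ' h => not_congr (hAd true τ τ' fun a _ hb => h a hb), ENNReal.toReal_mul]
    rfl
  have hsub : {τ | acc (oo (mixP (Old j) ω τ)) v x ↔ Hl κ (mixP (Old j) ω τ) x = false} ⊆
      (A false ∩ {τ : Om | τ (κ, x, [], 0) = false}) ∪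
        ((A true)ᶜ ∩ {τ : Om | τ (κ, x, [], 0) = true}) := by
    intro τ hτ
    have h1 : mixP (Old j) ω τ (κ, x, [], 0) = τ (κ, x, [], 0) := mixP_neg ha
    have h2 : acc (oo (mixP (Old j) ω τ)) v x ↔ τ (κ, x, [], 0) = false := by
      rw [← h1]
      exact hτ
    rcases hb : τ (κ, x, [], 0) with _ | _
    · refine Or.inl ⟨?_, hb⟩
      show acc (oo (fl κ x false (mixP (Old j) ω τ))) v x
      rw [fl_self (h1.trans hb)]
      exact h2.2 hb
    · refine Or.inr ⟨?_, hb⟩
      show ¬ acc (oo (fl κ x true (mixP (Old j) ω τ))) v x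
      rw [fl_self (h1.trans hb)]
      intro h3
      have h4 := h2.1 h3
      rw [hb] at h4
      exact Bool.false_ne_true h4.symm
  -- the key is not found
  let H : Set Om := {τ | ∃ s < (x.length + 2) ^ v.2.2,
    Asks (Ot κ x (qb v x.length) (mixP (Old j) ω τ)) v.1
      (pair x (wt v x (Ot κ x (qb v x.length) (mixP (Old j) ω τ)))) s
      (wq κ (x ++ [true]) (key τ κ (x ++ [true])))}
  have hH : coin.real H ≤ 1 / 2 := by
    have h1 := hit hκ x (qb v x.length) (Old j) ω v.1 (fun O => pair x (wt v x O))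
      ((x.length + 2) ^ v.2.2)
    have h2 : coin H ≤ 2⁻¹ := by
      refine h1.trans ?_
      calc (((x.length + 2) ^ v.2.2 : ℕ) : ℝ≥0∞) * (2⁻¹ : ℝ≥0∞) ^ lev κ (x ++ [true])
          ≤ ((2 ^ nn j : ℕ) : ℝ≥0∞) * (2⁻¹ : ℝ≥0∞) ^ (nn j + 1) := by
            refine mul_le_mul' (by exact_mod_cast hT) ?_
            exact pow_le_pow_right_of_le_one' (ENNReal.inv_le_one.2 (by norm_num)) (by omega)
        _ = 2⁻¹ := by
            rw [pow_succ, ← mul_assoc]
            push_cast
            rw [← mul_pow, ENNReal.mul_inv_cancel (by norm_num) (by norm_num), one_pow, one_mul]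
    have h3 := ENNReal.toReal_mono (by norm_num) h2
    rw [measureReal_def]
    refine h3.trans ?_
    norm_num
  have hA01 : A false ⊆ A true ∪ H := by
    intro τ h0
    by_cases h1 : τ ∈ A true
    · exact Or.inl h1
    · refine Or.inr ?_
      have h2 := acc_diff hκ x v (mixP (Old j) ω τ) hQL h0 h1
      have h3 : key (mixP (Old j) ω τ) κ (x ++ [true]) = key τ κ (x ++ [true]) := by
        unfold key
        refine List.map_congr_left fun i hi => mixP_neg (hkc _ ?_)
        exact Finset.mem_image.2 ⟨i, Finset.mem_range.2 (List.mem_range.1 hi), rfl⟩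
      rw [h3] at h2
      exact h2
  have hA : coin.real (A false) ≤ coin.real (A true) + 1 / 2 :=
    (measureReal_mono hA01).trans ((measureReal_union_le _ _).trans (by linarith))
  have hc : coin.real (A true)ᶜ = 1 - coin.real (A true) := probReal_compl_eq_one_sub (hAm true)
  calc coin.real {τ | acc (oo (mixP (Old j) ω τ)) v x ↔ Hl κ (mixP (Old j) ω τ) x = false}
      ≤ coin.real ((A false ∩ {τ : Om | τ (κ, x, [], 0) = false}) ∪
        ((A true)ᶜ ∩ {τ : Om | τ (κ, x, [], 0) = true})) := measureReal_mono hsub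
    _ ≤ _ := measureReal_union_le _ _
    _ ≤ 3 / 4 := by
      rw [i0, i1, hc]
      linarith

end Pool.Agent.RelJ
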