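import Pool.Agent.RelJ.Core
import Pool.Agent.RelU.NN
import Pool.Agent.RelU.MEAS
import Pool.Agent.RelM.HIT
import Pool.Agent.RelM.LOC

/-!
# Finding a hidden key
-/

set_option autoImplicit false

namespace Pool.Agent.RelJ

open MeasureTheory Set
open scoped ENNReal
open Pool.Agent.RelM (Lang Instr Cfg step run Halts pair str pre wq sq0 sq1 Asks hq)
open Pool.Agent.RelO (lev levmono levfin)
open Pool.Agent.RelS (Z Rl orcV orc Idx Om Dep mixP fd ovis ocut)
open Pool.Agent.RelU (coin key key_length indep coin_cyl)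
open Pool.Agent.RelZ (SS Vis)

namespace HIT_

/-- Hidden pairs are expensive. -/
lemma hidden_ge (κ t : ℕ) {κ' : ℕ} {x' : List Bool}
    (h : ¬ SS κ t κ' x') : lev κ (str t) ≤ lev κ' x' := not_lt.1 h

/-- The world depends only on the sign coin and the coins of the key. -/
lemma zo_congr {ω ω' : Om} {κ : ℕ} {x : List Bool}
    (h0 : x ≠ [] → ω (κ, x.dropLast, [], 0) = ω' (κ, x.dropLast, [], 0))
    (h : ∀ i, i < lev κ x → ω (κ, x, [], i + 1) = ω' (κ, x, [], i + 1)) (y : List Bool) :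
    zo ω κ x y = zo ω' κ x y := by
  have h1 : key ω κ x = key ω' κ x := by
    unfold key
    refine List.map_congr_left fun i hi => ?_
    exact h i (List.mem_range.1 hi)
  have h3 : sgn ω κ x = sgn ω' κ x := by
    unfold sgn
    rcases eq_or_ne x [] with rfl | hx
    · rfl
    · rw [List.getLast?_eq_some_getLast hx]
      simp only [h0 hx]
  unfold zo
  rw [h1, h3]

/-- The hidden oracle depends only on the visible coins. -/
lemma ov_dep (κ t : ℕ) {ω ω' : Om}
    (h : ∀ a ∈ Vis κ t, ω a = ω' a) : ov κ t ω = ov κ t ω' := by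
  funext q
  unfold ov
  refine ovis _ _ _ _ (fun κ₁ x₁ y₁ hs₁ _ => ?_) q
  have hs : lev κ₁ x₁ < lev κ (str t) := hs₁
  refine zo_congr (fun _ => h _ ⟨rfl, Or.inr ⟨?_, Nat.zero_le _⟩⟩)
    (fun i hi => h _ ⟨rfl, Or.inr ⟨hs, ?_⟩⟩) y₁
  · show lev κ₁ x₁.dropLast < lev κ (str t)
    refine lt_of_le_of_lt (levmono _ _ _ ?_) hs
    rw [List.length_dropLast]
    exact Nat.sub_le _ _
  · show i + 1 ≤ lev κ₁ x₁
    omega

/-- The event that `wq κ' x' y` with a hidden pair is asked at step `s`. -/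
def A (κ t : ℕ) (Pr : List Instr) (X : Om → List Bool) (s : ℕ)
    (i : ℕ × List Bool × List Bool) : Set Om :=
  {ω | ¬ SS κ t i.1 i.2.1 ∧ Asks (ov κ t ω) Pr (X ω) s (wq i.1 i.2.1 i.2.2)}

lemma visfin (κ t : ℕ) : (Vis κ t).Finite := by
  set m := max κ (max (lev κ (str t)) (Nat.log 2 (t + 1) + t + 1)) with hm
  have h1 : (Set.Iic m ×ˢ ({x : List Bool | x.length ≤ m} ×ˢ
      (({[]} : Set (List Bool)) ×ˢ Set.Iic m)) : Set Idx).Finite :=
    (Set.finite_Iic _).prod ((List.finite_length_le Bool _).prod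
      ((Set.finite_singleton _).prod (Set.finite_Iic _)))
  refine h1.subset ?_
  rintro ⟨κ₁, x, y, i⟩ ⟨h2, h3⟩
  have hm1 : κ ≤ m := le_max_left _ _
  have hm2 : lev κ (str t) ≤ m := (le_max_left _ _).trans (le_max_right _ _)
  have hm3 : Nat.log 2 (t + 1) + t + 1 ≤ m := (le_max_right _ _).trans (le_max_right _ _)
  rcases h3 with ⟨h4, h5, s, hs, h6⟩ | ⟨h4, h5⟩
  · have h4' : κ₁ = κ := h4
    have h5' : i = 0 := h5
    have h6' : x = str s := h6
    refine ⟨show κ₁ ≤ m by omega, ?_, h2, show i ≤ m by omega⟩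
    show x.length ≤ m
    rw [h6', Pool.Agent.RelM.strlen]
    have : Nat.log 2 (s + 1) ≤ Nat.log 2 (t + 1) := Nat.log_mono_right (by omega)
    omega
  · have h4' : lev κ₁ x < lev κ (str t) := h4
    have h5' : i ≤ lev κ₁ x := h5
    obtain ⟨h6, h7⟩ := levfin κ₁ x m (by omega)
    exact ⟨h6, h7, h2, show i ≤ m by omega⟩

lemma A_iff (κ t : ℕ) {Pr : List Instr}
    {X : Om → List Bool} (hX : Dep (Vis κ t) X) (s : ℕ) (i : ℕ × List Bool × List Bool)
    {ω ω' : Om} (h : ∀ a ∈ Vis κ t, ω a = ω' a) :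
    ω ∈ A κ t Pr X s i ↔ ω' ∈ A κ t Pr X s i := by
  show (_ ∧ Asks (ov κ t ω) Pr (X ω) s _) ↔ (_ ∧ Asks (ov κ t ω') Pr (X ω') s _)
  rw [ov_dep κ t h, hX ω ω' h]

lemma A_meas (κ t : ℕ) {Pr : List Instr}
    {X : Om → List Bool} (hX : Dep (Vis κ t) X) (s : ℕ) (i : ℕ × List Bool × List Bool) :
    MeasurableSet (A κ t Pr X s i) :=
  fd (visfin κ t) fun _ _ h => A_iff κ t hX s i h

/-- The coins of the key. -/
def kc (κ' : ℕ) (x' : List Bool) : Finset Idx :=
  (Finset.range (lev κ' x')).image fun i => ((κ', x', [], i + 1) : Idx)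

/-- The coins of a hidden key are not visible. -/
lemma hidden_notMem (κ t : ℕ) {κ' : ℕ} {x' : List Bool} (hS : ¬ SS κ t κ' x')
    {a : Idx} (ha : a ∈ Vis κ t) : a ∉ (kc κ' x' : Set Idx) := by
  intro hk
  obtain ⟨i, _, rfl⟩ := Finset.mem_image.1 (show a ∈ kc κ' x' from hk)
  obtain ⟨_, ⟨_, h1, _⟩ | ⟨h1, _⟩⟩ := ha
  · exact Nat.succ_ne_zero i h1
  · exact hS h1

lemma kc_card (κ' : ℕ) (x' : List Bool) : (kc κ' x').card = lev κ' x' := by
  unfold kc
  rw [Finset.card_image_of_injective, Finset.card_range]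
  intro i j h
  have := congrArg (fun a : Idx => a.2.2.2) h
  simpa using this

/-- The values of the coins of the key `y`. -/
def kv (y : List Bool) : Idx → Bool := fun a => y.getD (a.2.2.2 - 1) false

lemma key_cyl {ω : Om} {κ' : ℕ} {x' y : List Bool} (h : zo ω κ' x' y = true) :
    ω ∈ {ω : Om | ∀ a ∈ kc κ' x', ω a = kv y a} := by
  unfold zo at h
  rw [Bool.and_eq_true, decide_eq_true_eq] at h
  intro a ha
  unfold kc at ha
  obtain ⟨i, hi, rfl⟩ := Finset.mem_image.1 ha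
  have hi' := Finset.mem_range.1 hi
  unfold kv
  rw [h.2]
  show ω (κ', x', [], i + 1) = (key ω κ' x').getD (i + 1 - 1) false
  rw [Nat.add_sub_cancel, List.getD_eq_getElem _ _ (by rw [key_length]; exact hi')]
  unfold key
  rw [List.getElem_map, List.getElem_range]

/-- A hidden key is hit with small probability. -/
lemma hit_one (κ t : ℕ) {Pr : List Instr}
    {X : Om → List Bool} (hX : Dep (Vis κ t) X) (s : ℕ) (i : ℕ × List Bool × List Bool) :
    coin (A κ t Pr X s i ∩ {ω | zo ω i.1 i.2.1 i.2.2 = true}) ≤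
      (2⁻¹ : ℝ≥0∞) ^ (lev κ (str t) / 2) * coin (A κ t Pr X s i) := by
  obtain ⟨κ', x', y⟩ := i
  by_cases hS : SS κ t κ' x'
  · have : A κ t Pr X s (κ', x', y) = ∅ := by
      ext ω
      constructor
      · intro h
        exact (h.1 hS).elim
      · intro h
        exact h.elim
    rw [this]
    simp
  have hge := hidden_ge κ t hS
  let C : Set Om := {ω : Om | ∀ a ∈ kc κ' x', ω a = kv y a}
  have hAm := A_meas κ t (Pr := Pr) hX s (κ', x', y)
  have hCiff : ∀ ω ω' : Om, (∀ a ∈ (kc κ' x' : Set Idx), ω a = ω' a) → (ω ∈ C ↔ ω' ∈ C) := by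
    intro ω ω' h
    show (∀ a ∈ kc κ' x', ω a = kv y a) ↔ (∀ a ∈ kc κ' x', ω' a = kv y a)
    refine forall₂_congr fun a ha => ?_
    rw [h a ha]
  have hCm : MeasurableSet C := fd (Finset.finite_toSet _) hCiff
  have hCd : Dep (kc κ' x' : Set Idx) (C.indicator (1 : Om → ℝ≥0∞)) := by
    intro ω ω' h
    have hC := hCiff ω ω' h
    by_cases hω : ω ∈ C
    · rw [Set.indicator_of_mem hω, Set.indicator_of_mem (hC.1 hω)]
      rfl
    · rw [Set.indicator_of_notMem hω, Set.indicator_of_notMem fun h => hω (hC.2 h)]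
  have hAd : Dep (kc κ' x' : Set Idx)ᶜ
      ((A κ t Pr X s (κ', x', y)).indicator (1 : Om → ℝ≥0∞)) := by
    intro ω ω' h
    have hA : ω ∈ A κ t Pr X s (κ', x', y) ↔ ω' ∈ A κ t Pr X s (κ', x', y) :=
      A_iff κ t hX s _ fun a ha => h a (hidden_notMem κ t hS ha)
    by_cases hω : ω ∈ A κ t Pr X s (κ', x', y)
    · rw [Set.indicator_of_mem hω, Set.indicator_of_mem (hA.1 hω)]
      rfl
    · rw [Set.indicator_of_notMem hω, Set.indicator_of_notMem fun h => hω (hA.2 h)]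
  have hsub : A κ t Pr X s (κ', x', y) ∩ {ω | zo ω κ' x' y = true} ⊆
      A κ t Pr X s (κ', x', y) ∩ C := by
    rintro ω ⟨hA, hz⟩
    exact ⟨hA, key_cyl hz⟩
  have hi := indep (p := (kc κ' x' : Set Idx)) (F := C.indicator 1)
    (G := (A κ t Pr X s (κ', x', y)).indicator 1)
    (measurable_one.indicator hCm) (measurable_one.indicator hAm) hCd hAd
  rw [lintegral_indicator_one hCm, lintegral_indicator_one hAm] at hi
  have hmul : ∀ ω : Om, C.indicator (1 : Om → ℝ≥0∞) ω *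
      (A κ t Pr X s (κ', x', y)).indicator 1 ω =
      (A κ t Pr X s (κ', x', y) ∩ C).indicator 1 ω := by
    intro ω
    by_cases ha : ω ∈ A κ t Pr X s (κ', x', y) <;> by_cases hb : ω ∈ C <;>
      simp [Set.indicator, ha, hb]
  simp only [hmul] at hi
  rw [lintegral_indicator_one (hAm.inter hCm)] at hi
  have hCc : coin C = (2⁻¹ : ℝ≥0∞) ^ lev κ' x' := by
    have := coin_cyl (kc κ' x') (kv y)
    rw [kc_card] at this
    exact this
  calc coin (A κ t Pr X s (κ', x', y) ∩ {ω | zo ω κ' x' y = true})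
      ≤ coin (A κ t Pr X s (κ', x', y) ∩ C) := measure_mono hsub
    _ = (2⁻¹ : ℝ≥0∞) ^ lev κ' x' * coin (A κ t Pr X s (κ', x', y)) := by rw [hi, hCc]
    _ ≤ (2⁻¹ : ℝ≥0∞) ^ (lev κ (str t) / 2) * coin (A κ t Pr X s (κ', x', y)) := by
        refine mul_le_mul' ?_ le_rfl
        exact pow_le_pow_right_of_le_one' (ENNReal.inv_le_one.2 (by norm_num)) (by omega)

end HIT_

open HIT_ in
/-- Finding a hidden key. -/
theorem p_HIT : T_HIT := by
  intro κ t Pr X τ hXd hXl
  set m := lev κ (str t) with hm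
  -- the events that a hidden key is asked
  have hsub : {ω | ∃ s ≤ τ, run (oo ω) Pr (X ω) s ≠ run (ov κ t ω) Pr (X ω) s} ⊆
      ⋃ s ∈ Finset.range τ, ⋃ i : ℕ × List Bool × List Bool,
        (A κ t Pr X s i ∩ {ω | zo ω i.1 i.2.1 i.2.2 = true}) := by
    intro ω hω
    by_contra hcon
    simp only [Set.mem_iUnion, Finset.mem_range, not_exists, exists_prop, not_and] at hcon
    obtain ⟨s, hsτ, hne⟩ := hω
    apply hne
    refine Pool.Agent.RelM.loc _ _ Pr (X ω) τ (fun s' hs' q hq => ?_) s hsτ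
    by_contra hne'
    have hlen := Pool.Agent.RelM.len _ _ _ _ _ hq
    have hXl' := hXl ω
    rcases ocut (SS κ t) (fun _ => false) (fun _ => false)
      (zo ω) (zo ω) (fun _ _ _ _ _ => rfl) q
      (fun h => hne' h.symm) with
      ⟨κ', x', y', hS, hy', hq', hz'⟩ | ⟨κ', x', m', hS, hq', hm'⟩ | ⟨u, hq', hu⟩
    · refine hcon s' hs' (κ', x', y') ⟨⟨hS, ?_⟩, hz'⟩
      rw [← hq']
      exact hq
    · have h2 := Pool.Agent.RelM.HitJob.le_length_sq1 κ' x' m'
      rw [← hq'] at h2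
      have h4 : 2 ^ m ≤ 2 ^ lev κ' x' :=
        Nat.pow_le_pow_right (by norm_num) (hidden_ge κ t hS)
      omega
    · exact hu rfl
  have hdisj : ∀ s, Pairwise (Function.onFun Disjoint (A κ t Pr X s)) := by
    intro s i j hij
    rw [Function.onFun, Set.disjoint_left]
    rintro ω ⟨_, h1⟩ ⟨_, h2⟩
    apply hij
    obtain ⟨e1, e2, e3⟩ := Pool.Agent.RelM.HitJob.wq_inj' (Pool.Agent.RelM.one _ _ _ _ _ _ h1 h2)
    exact Prod.ext e1 (Prod.ext e2 e3)
  calc coin {ω | ∃ s ≤ τ, run (oo ω) Pr (X ω) s ≠ run (ov κ t ω) Pr (X ω) s}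
      ≤ coin (⋃ s ∈ Finset.range τ, ⋃ i : ℕ × List Bool × List Bool,
        (A κ t Pr X s i ∩ {ω | zo ω i.1 i.2.1 i.2.2 = true})) := measure_mono hsub
    _ ≤ ∑ s ∈ Finset.range τ, coin (⋃ i : ℕ × List Bool × List Bool,
        (A κ t Pr X s i ∩ {ω | zo ω i.1 i.2.1 i.2.2 = true})) :=
        measure_biUnion_finset_le _ _
    _ ≤ ∑ _s ∈ Finset.range τ, (2⁻¹ : ℝ≥0∞) ^ (m / 2) := by
        refine Finset.sum_le_sum fun s _ => ?_
        calc coin (⋃ i : ℕ × List Bool × List Bool,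
              (A κ t Pr X s i ∩ {ω | zo ω i.1 i.2.1 i.2.2 = true}))
            ≤ ∑' i : ℕ × List Bool × List Bool,
              coin (A κ t Pr X s i ∩ {ω | zo ω i.1 i.2.1 i.2.2 = true}) :=
              measure_iUnion_le _
          _ ≤ ∑' i, (2⁻¹ : ℝ≥0∞) ^ (m / 2) * coin (A κ t Pr X s i) :=
              ENNReal.tsum_le_tsum fun i => hit_one κ t hXd s i
          _ = (2⁻¹ : ℝ≥0∞) ^ (m / 2) * coin (⋃ i, A κ t Pr X s i) := by
              rw [ENNReal.tsum_mul_left, measure_iUnion (hdisj s) fun i =>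
                A_meas κ t hXd s i]
          _ ≤ (2⁻¹ : ℝ≥0∞) ^ (m / 2) * 1 := by
              gcongr
              exact prob_le_one
          _ = (2⁻¹ : ℝ≥0∞) ^ (m / 2) := mul_one _
    _ = τ * (2⁻¹ : ℝ≥0∞) ^ (m / 2) := by
        rw [Finset.sum_const, Finset.card_range, nsmul_eq_mul]

end Pool.Agent.RelJ
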