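import Pool.Agent.RelJ.Core
import Pool.Agent.RelU.ACC

/-!
# NIN: the complement of the hidden language is not in NP
-/

set_option autoImplicit false

namespace Pool.Agent.RelJ

open MeasureTheory Set
open scoped ENNReal
open Pool.Agent.RelM (Lang Instr run Halts NP pair str qb)
open Pool.Agent.RelO (lev st levfin)
open Pool.Agent.RelS (Z orcV orc acc Idx Om Dep mixP fd oloc)
open Pool.Agent.RelB (acc_congr)
open Pool.Agent.RelU (NM coin key nn Old ms Wd pcode pcode_surj)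
open Pool.Agent.RelY (Hl)

namespace NIN_

/-- The coins of the pairs of level at most `m`. -/
def Fi (m : ℕ) : Set Idx :=
  {a | a.1 ≤ m ∧ a.2.1.length ≤ m ∧ a.2.2.1.length ≤ m ∧ a.2.2.2 ≤ m}

theorem fi_fin (m : ℕ) : (Fi m).Finite := by
  have h1 : (Set.Iic m ×ˢ ({x : List Bool | x.length ≤ m} ×ˢ
      ({y : List Bool | y.length ≤ m} ×ˢ Set.Iic m)) : Set Idx).Finite :=
    (Set.finite_Iic _).prod ((List.finite_length_le Bool _).prod
      ((List.finite_length_le Bool _).prod (Set.finite_Iic _)))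
  refine h1.subset ?_
  rintro ⟨κ, x, y, i⟩ ⟨h2, h3, h4, h5⟩
  exact ⟨h2, h3, h4, h5⟩

theorem sgn_congr {ω ω' : Om} {m : ℕ} (h : ∀ a ∈ Fi m, ω a = ω' a) {κ : ℕ} {x : List Bool}
    (hl : lev κ x ≤ m) : sgn ω κ x = sgn ω' κ x := by
  obtain ⟨h1, h2⟩ := levfin κ x m hl
  have h3 : ω (κ, x.dropLast, [], 0) = ω' (κ, x.dropLast, [], 0) := by
    refine h _ ⟨h1, ?_, Nat.zero_le _, Nat.zero_le _⟩
    show x.dropLast.length ≤ m
    rw [List.length_dropLast]
    omega
  unfold sgn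
  rw [h3]

theorem zo_congr {ω ω' : Om} {m : ℕ} (h : ∀ a ∈ Fi m, ω a = ω' a) {κ : ℕ} {x : List Bool}
    (hl : lev κ x ≤ m) (y : List Bool) : zo ω κ x y = zo ω' κ x y := by
  obtain ⟨h1, h2⟩ := levfin κ x m hl
  have h3 : key ω κ x = key ω' κ x := by
    unfold key
    refine List.map_congr_left fun i hi => ?_
    have := List.mem_range.1 hi
    refine h _ ⟨h1, h2, Nat.zero_le _, ?_⟩
    show i + 1 ≤ m
    omega
  unfold zo
  rw [h3, sgn_congr h hl]

theorem acc_dep {ω ω' : Om} (v : NM) (x : List Bool)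
    (h : ∀ a ∈ Fi (qb v x.length), ω a = ω' a) : acc (oo ω) v x ↔ acc (oo ω') v x := by
  refine acc_congr fun q hq => ?_
  unfold oo orc
  exact oloc _ _ _ _ _ (qb v x.length) (fun κ x' y h1 _ => zo_congr h h1 y) (fun _ _ => rfl) q hq

/-- The machine decides the word number `t`. -/
def Ev (κ : ℕ) (v : NM) (t : ℕ) : Set Om :=
  {ω | acc (oo ω) v (str t) ↔ Hl κ ω (str t) = false}

theorem ev_meas (κ : ℕ) (v : NM) (t : ℕ) : MeasurableSet (Ev κ v t) := by
  refine fd ((fi_fin (qb v (str t).length)).union (Set.finite_singleton ((κ, str t, [], 0) : Idx)))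
    fun ω ω' h => ?_
  have h1 := acc_dep (ω := ω) (ω' := ω') v (str t) fun a ha => h a (Or.inl ha)
  have h2 : Hl κ ω (str t) = Hl κ ω' (str t) := h _ (Or.inr rfl)
  unfold Ev
  simp only [Set.mem_ofPred_eq]
  rw [h1, h2]

/-- The machine decides the first words of its stages. -/
def SN (κ : ℕ) (v : NM) (e : ℕ) : Set Om :=
  ⋂ (j : ℕ) (_ : 1 ≤ j) (_ : st j = e), Ev κ v (2 ^ nn j)

theorem sn_meas (κ : ℕ) (v : NM) (e : ℕ) : MeasurableSet (SN κ v e) :=
  MeasurableSet.iInter fun _ => MeasurableSet.iInter fun _ => MeasurableSet.iInter fun _ =>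
    ev_meas κ v _

theorem sn_mem {κ : ℕ} {v : NM} {e : ℕ} {ω : Om} :
    ω ∈ SN κ v e ↔ ∀ j, 1 ≤ j → st j = e → ω ∈ Ev κ v (2 ^ nn j) := by
  unfold SN
  simp only [Set.mem_iInter]

theorem sn_null (hFLP : T_FLP) (hDNS : Pool.Agent.RelU.T_DNS) {κ : ℕ} (hκ : κ % 4 < 2)
    (v : NM) {e : ℕ} (he : pcode e = (v, v)) : coin (SN κ v e) = 0 := by
  by_contra hne
  obtain ⟨j, hj, hst, ω, hω⟩ := hDNS (SN κ v e) (sn_meas κ v e) hne (1 / 8) (by norm_num) e 1
  have ht : 2 ^ nn j ∈ Wd j := by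
    unfold Wd
    rw [Finset.mem_Ico]
    exact ⟨le_rfl, Nat.pow_lt_pow_right (by norm_num) (by omega)⟩
  have hv : v ∈ ms j := by
    have h1 := Pool.Agent.RelU.mem_one j
    rw [hst, he] at h1
    exact h1
  have h1 := hFLP κ hκ j (2 ^ nn j) ω v ht hv
  have h8 : (Set.univ : Set Om) ⊆ {τ | mixP (Old j) ω τ ∉ SN κ v e} ∪
      {τ | acc (oo (mixP (Old j) ω τ)) v (str (2 ^ nn j)) ↔
        Hl κ (mixP (Old j) ω τ) (str (2 ^ nn j)) = false} := by
    intro τ _
    by_cases h : mixP (Old j) ω τ ∈ SN κ v e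
    · exact Or.inr (sn_mem.1 h j hj hst)
    · exact Or.inl h
  have h9 := measureReal_mono (μ := coin) h8
  have h10 := measureReal_union_le (μ := coin) {τ | mixP (Old j) ω τ ∉ SN κ v e}
    {τ | acc (oo (mixP (Old j) ω τ)) v (str (2 ^ nn j)) ↔
        Hl κ (mixP (Old j) ω τ) (str (2 ^ nn j)) = false}
  have h11 : coin.real (Set.univ : Set Om) = 1 := probReal_univ
  linarith

end NIN_

open NIN_

theorem p_NIN_of (hFLP : T_FLP) (hDNS : Pool.Agent.RelU.T_DNS) : T_NIN := by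
  intro κ hκ
  have h1 : ∀ᵐ ω ∂coin, ∀ v : NM, ∀ e : ℕ, pcode e = (v, v) → ω ∉ SN κ v e := by
    rw [ae_all_iff]
    intro v
    rw [ae_all_iff]
    intro e
    by_cases he : pcode e = (v, v)
    · have h2 : {ω | ¬ (pcode e = (v, v) → ω ∉ SN κ v e)} = SN κ v e := by
        ext ω
        simp [he]
      rw [ae_iff, h2]
      exact sn_null hFLP hDNS hκ v he
    · exact Filter.Eventually.of_forall fun ω h => absurd h he
  filter_upwards [h1] with ω hω hN
  obtain ⟨P, j, k, hP⟩ := hN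
  obtain ⟨e, he⟩ := pcode_surj ((P, j, k), (P, j, k))
  refine hω (P, j, k) e he (sn_mem.2 fun i _ _ => ?_)
  have h2 := (hP (str (2 ^ nn i))).2
  show acc (oo ω) (P, j, k) (str (2 ^ nn i)) ↔ Hl κ ω (str (2 ^ nn i)) = false
  refine Iff.trans h2.symm ?_
  show xor true (Hl κ ω (str (2 ^ nn i))) = true ↔ Hl κ ω (str (2 ^ nn i)) = false
  cases Hl κ ω (str (2 ^ nn i)) <;> simp

end Pool.Agent.RelJ
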