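import Pool.Agent.RelJ.Core
import Pool.Agent.RelZ.P_NONB

/-!
# The hidden language and its complement have no null cover (job NONX of RelJ)
-/

set_option autoImplicit false

namespace Pool.Agent.RelJ

open MeasureTheory Set
open scoped ENNReal
open Pool.Agent.RelM (Lang Instr Cfg step run Halts triple outVal Approx str pre IsDensity
  IsNullCover)
open Pool.Agent.RelO (lev proc levmono levfin)
open Pool.Agent.RelS (Z Rl Idx Om Dep meas_of_dep ovis)
open Pool.Agent.RelU (coin key key_length Old oldfin nn nnp)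
open Pool.Agent.RelY (Hl)
open Pool.Agent.RelZ (SS Vis)
open Pool.Agent.RelT (Fast)

namespace NONX_

open Pool.Agent.RelZ.NONB_ (pre_length pre_succ triple_length lev_mono vis_mono visfin hitsum
  dens_step dens_pre ee ee_sum)

/-- The hidden oracle depends only on the visible coins. -/
theorem ov_dep (κ t : ℕ) {ω ω' : Om}
    (h : ∀ a ∈ Vis κ t, ω a = ω' a) : ov κ t ω = ov κ t ω' := by
  funext q
  unfold ov
  refine ovis _ _ _ _ (fun κ₁ x₁ y₁ hs₁ _ => ?_) q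
  have hs₂ : lev κ₁ x₁ < lev κ (str t) := hs₁
  have h1 : sgn ω κ₁ x₁ = sgn ω' κ₁ x₁ := by
    unfold sgn
    have h2 : ω (κ₁, x₁.dropLast, [], 0) = ω' (κ₁, x₁.dropLast, [], 0) := by
      refine h _ ⟨rfl, Or.inr ⟨?_, Nat.zero_le _⟩⟩
      refine lt_of_le_of_lt (levmono κ₁ x₁.dropLast x₁ ?_) hs₂
      rw [List.length_dropLast]
      exact Nat.sub_le _ _
    rw [h2]
  have h3 : key ω κ₁ x₁ = key ω' κ₁ x₁ := by
    unfold key
    refine List.map_congr_left fun i hi => ?_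
    have hi' := List.mem_range.mp hi
    exact h _ ⟨rfl, Or.inr ⟨hs₂, hi'⟩⟩
  unfold zo
  rw [h1, h3]

/-! ### The language -/

/-- The hidden language or its complement. -/
def RR (χ : Bool) (κ : ℕ) (ω : Om) : Lang := fun x => xor χ (Hl κ ω x)

/-- The input. -/
noncomputable def inp (χ : Bool) (κ k r t : ℕ) (e : List Bool) (ω : Om) : List Bool :=
  triple k r (pre (RR χ κ ω) t ++ e)

theorem inp_length (χ : Bool) (κ k r t : ℕ) (e : List Bool) (ω : Om) :
    (inp χ κ k r t e ω).length = k + r + (t + e.length) + 2 := by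
  unfold inp
  rw [triple_length, List.length_append, pre_length]

/-- The value computed. -/
noncomputable def val (κ t : ℕ) (Pr : List Instr) (T : ℕ → ℕ)
    (I : List Bool) (ω : Om) : ℝ :=
  |outVal (run (ov κ t ω) Pr I (T I.length))|

theorem bit_dep (χ : Bool) (κ : ℕ) {s t : ℕ} (h : s < t) :
    Dep (Vis κ t) fun ω => RR χ κ ω (str s) := by
  intro ω ω' hω
  show xor χ (ω (κ, str s, [], 0)) = xor χ (ω' (κ, str s, [], 0))
  rw [hω _ ⟨rfl, Or.inl ⟨rfl, rfl, s, h, rfl⟩⟩]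

theorem inp_dep (χ : Bool) (κ : ℕ) (k r t : ℕ) (e : List Bool) :
    Dep (Vis κ t) (inp χ κ k r t e) := by
  intro ω ω' hω
  unfold inp
  have h1 : pre (RR χ κ ω) t = pre (RR χ κ ω') t := by
    unfold pre
    refine List.map_congr_left fun i hi => ?_
    exact bit_dep χ κ (List.mem_range.mp hi) ω ω' hω
  rw [h1]

theorem val_dep (χ : Bool) (κ : ℕ) (t : ℕ) (Pr : List Instr) (T : ℕ → ℕ)
    (k r : ℕ) (e : List Bool) :
    Dep (Vis κ t) fun ω => val κ t Pr T (inp χ κ k r t e ω) ω := by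
  intro ω ω' hω
  show val κ t Pr T (inp χ κ k r t e ω) ω = val κ t Pr T (inp χ κ k r t e ω') ω'
  unfold val
  rw [ov_dep κ t hω, inp_dep χ κ k r t e ω ω' hω]

/-! ### Hits -/

/-- The event that hiding changes a run. -/
def Hit (χ : Bool) (κ : ℕ) (Pr : List Instr) (T : ℕ → ℕ) (k r t : ℕ) (e : List Bool) : Set Om :=
  {ω | ∃ s ≤ T (inp χ κ k r t e ω).length, run (oo ω) Pr (inp χ κ k r t e ω) s ≠
    run (ov κ t ω) Pr (inp χ κ k r t e ω) s}

theorem hit_bound (hHIT : T_HIT) (χ : Bool) (κ : ℕ) (Pr : List Instr)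
    (T : ℕ → ℕ) (c k r t : ℕ) (e : List Bool)
    (hB : ∀ l, l ≤ c * (t + 1) →
      l + T l < 2 ^ lev κ (str t) ∧
        4 * (t + 1) ^ 2 * T l ≤ 2 ^ (lev κ (str t) / 2))
    (hlen : k + r + (t + e.length) + 2 ≤ c * (t + 1)) :
    coin (Hit χ κ Pr T k r t e) ≤ ENNReal.ofReal (1 / ((t : ℝ) + 1) ^ 2) := by
  set l : ℕ := k + r + (t + e.length) + 2 with hl
  have hlenI : ∀ ω, (inp χ κ k r t e ω).length = l := fun ω => inp_length χ κ k r t e ω
  obtain ⟨hB1, hB2⟩ := hB l hlen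
  have hhit := hHIT κ t Pr (inp χ κ k r t e) (T l)
    (inp_dep χ κ k r t e) (fun ω => by rw [hlenI]; exact hB1)
  unfold Hit
  simp only [hlenI]
  refine hhit.trans ?_
  set L := lev κ (str t) / 2 with hL
  have h3 : (T l : ℝ≥0∞) * (2⁻¹ : ℝ≥0∞) ^ L = ENNReal.ofReal ((T l : ℝ) * (1 / 2) ^ L) := by
    rw [ENNReal.ofReal_mul (by positivity), ENNReal.ofReal_pow (by positivity)]
    congr 1
    · simp
    · congr 1
      rw [one_div, ENNReal.ofReal_inv_of_pos (by norm_num)]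
      simp
  rw [h3]
  apply ENNReal.ofReal_le_ofReal
  have h4 : (4 : ℝ) * ((t : ℝ) + 1) ^ 2 * (T l : ℝ) ≤ 2 ^ L := by exact_mod_cast hB2
  have h5 : (0 : ℝ) < ((t : ℝ) + 1) ^ 2 := by positivity
  rw [le_div_iff₀ h5, one_div_pow]
  have h6 : (0 : ℝ) < 2 ^ L := by positivity
  have h7 : (T l : ℝ) * (1 / 2 ^ L) * ((t : ℝ) + 1) ^ 2 =
      ((T l : ℝ) * ((t : ℝ) + 1) ^ 2) / 2 ^ L := by ring
  rw [h7, div_le_one h6]
  nlinarith [mul_nonneg (by positivity : (0 : ℝ) ≤ T l) h5.le]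

theorem val_close {χ : Bool} {κ : ℕ} {Pr : List Instr} {T : ℕ → ℕ} {ω : Om}
    {d : ℕ → List Bool → ℝ} (hd : ∀ k w, 0 ≤ d k w) (hA : Approx (oo ω) Pr T d)
    (k r t : ℕ) (e : List Bool) (hh : ω ∉ Hit χ κ Pr T k r t e) :
    |val κ t Pr T (inp χ κ k r t e ω) ω - d k (pre (RR χ κ ω) t ++ e)| ≤
      (1 / 2 : ℝ) ^ r := by
  have h1 : run (oo ω) Pr (inp χ κ k r t e ω) (T (inp χ κ k r t e ω).length) =
      run (ov κ t ω) Pr (inp χ κ k r t e ω) (T (inp χ κ k r t e ω).length) := by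
    by_contra hne
    exact hh ⟨_, le_rfl, hne⟩
  have h3 : |outVal (run (oo ω) Pr (inp χ κ k r t e ω)
      (T (inp χ κ k r t e ω).length)) - d k (pre (RR χ κ ω) t ++ e)|
      ≤ (1 / 2 : ℝ) ^ r := (hA k r (pre (RR χ κ ω) t ++ e)).2
  rw [h1] at h3
  have h4 : 0 ≤ d k (pre (RR χ κ ω) t ++ e) := hd k _
  unfold val
  have h5 := abs_abs_sub_abs_le (outVal (run (ov κ t ω) Pr (inp χ κ k r t e ω)
    (T (inp χ κ k r t e ω).length))) (d k (pre (RR χ κ ω) t ++ e))
  rw [abs_of_nonneg h4] at h5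
  exact h5.trans h3

/-! ### The processes -/

/-- The values at time `i + 1`. -/
noncomputable def XX (χ : Bool) (κ : ℕ) (Pr : List Instr) (T : ℕ → ℕ) (j i : ℕ) (b : Bool)
    (ω : Om) : ℝ :=
  val κ (j + i) Pr T (inp χ κ (2 * j) (j + i + 1 + 2 * j + 3) (j + i) [b] ω) ω

/-- The value at time `0`. -/
noncomputable def YY (χ : Bool) (κ : ℕ) (Pr : List Instr) (T : ℕ → ℕ) (j : ℕ) (ω : Om) : ℝ :=
  val κ j Pr T (inp χ κ (2 * j) (j + 2 * j + 3) j [] ω) ω

/-- The bits. -/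
noncomputable def bb (χ : Bool) (κ j i : ℕ) (ω : Om) : Bool := RR χ κ ω (str (j + i))

/-- The event that a gambler wins. -/
def Win (χ : Bool) (κ : ℕ) (Pr : List Instr) (T : ℕ → ℕ) (j : ℕ) : Set Om :=
  {ω | YY χ κ Pr T j ω ≤ 2 * (1 / 2 : ℝ) ^ j ∧
    (∀ i, 1 / 2 * XX χ κ Pr T j i false ω + (1 - 1 / 2) * XX χ κ Pr T j i true ω ≤
      proc (bb χ κ j) (XX χ κ Pr T j) (YY χ κ Pr T j) i ω + ee j i) ∧
    ∃ i, 1 / 2 ≤ proc (bb χ κ j) (XX χ κ Pr T j) (YY χ κ Pr T j) i ω}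

theorem cross_bound (hF : Pool.Agent.RelZ.T_FAIR) (χ : Bool) {κ : ℕ}
    (Pr : List Instr) (T : ℕ → ℕ) (j : ℕ) :
    coin (Win χ κ Pr T j) ≤ ENNReal.ofReal (6 * (1 / 2 : ℝ) ^ j) := by
  obtain ⟨hs1, hs2⟩ := ee_sum j
  have hXd : ∀ i b, Dep (Vis κ (j + i)) (XX χ κ Pr T j i b) := fun i b =>
    val_dep χ κ (j + i) Pr T _ _ _
  have hYd : Dep (Vis κ j) (YY χ κ Pr T j) :=
    val_dep χ κ j Pr T _ _ _
  have hfin : ∀ t, (Vis κ t).Finite := visfin κ
  have hc := Pool.Agent.RelT.cross coin (bb χ κ j) (XX χ κ Pr T j) (YY χ κ Pr T j)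
    (fun _ _ => 1 / 2) (fun t ω ω' => ∀ a ∈ Vis κ (j + t), ω a = ω' a) (ee j)
    (2 * (1 / 2 : ℝ) ^ j)
    (fun t => meas_of_dep (hfin (j + t + 1))
      (bit_dep χ κ (Nat.lt_succ_self (j + t))))
    (fun t i => meas_of_dep (hfin _) (hXd t i)) (meas_of_dep (hfin _) hYd)
    (fun _ => measurable_const)
    (fun t ω ω' h => hYd ω ω' fun a ha => h a (vis_mono κ (by omega) ha))
    (fun s t hst ω ω' h => bit_dep χ κ (by omega : j + s < j + t) ω ω' h)
    (fun s t hst i ω ω' h => hXd s i ω ω' fun a ha => h a (vis_mono κ (by omega) ha))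
    (fun _ _ _ _ _ _ => rfl) (fun _ _ => by norm_num) (fun _ _ => by norm_num)
    ?_ (fun t i ω => abs_nonneg _) (fun ω => abs_nonneg _)
    (fun t => by unfold ee; positivity) hs1 (by positivity)
  · refine hc.trans ?_
    apply ENNReal.ofReal_le_ofReal
    linarith
  · intro t H hH hHd
    have h1 := hF κ (j + t) H χ hH hHd
    have h2 := hF κ (j + t) H (!χ) hH hHd
    have s1 : {ω : Om | Hl κ ω (str (j + t)) = χ} = {ω | bb χ κ j t ω = false} := by
      ext ω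
      show Hl κ ω (str (j + t)) = χ ↔ xor χ (Hl κ ω (str (j + t))) = false
      cases χ <;> cases Hl κ ω (str (j + t)) <;> simp
    have s2 : {ω : Om | Hl κ ω (str (j + t)) = !χ} = {ω | bb χ κ j t ω = true} := by
      ext ω
      show Hl κ ω (str (j + t)) = !χ ↔ xor χ (Hl κ ω (str (j + t))) = true
      cases χ <;> cases Hl κ ω (str (j + t)) <;> simp
    rw [s1] at h1
    rw [s2] at h2
    have h3 : ENNReal.ofReal (1 / 2) = 2⁻¹ := by
      rw [one_div, ENNReal.ofReal_inv_of_pos (by norm_num)]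
      norm_num
    have h4 : ENNReal.ofReal (1 - 1 / 2) = 2⁻¹ := by
      rw [show (1 : ℝ) - 1 / 2 = 1 / 2 by norm_num, h3]
    constructor
    · rw [h3, lintegral_const_mul _ hH]
      exact h1.le
    · rw [h4, lintegral_const_mul _ hH]
      exact h2.le

theorem incl (χ : Bool) (κ : ℕ) (Pr : List Instr) (T : ℕ → ℕ) (j : ℕ) (hj : 1 ≤ j) :
    {ω | ∃ d : ℕ → List Bool → ℝ, IsNullCover d {fun x => xor χ (Hl κ ω x)} ∧
      Approx (oo ω) Pr T d} ⊆
    Win χ κ Pr T j ∪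
    (Hit χ κ Pr T (2 * j) (j + 2 * j + 3) j [] ∪
      ((⋃ i, Hit χ κ Pr T (2 * j) (j + i + 1 + 2 * j + 3) (j + i) [false]) ∪
        ⋃ i, Hit χ κ Pr T (2 * j) (j + i + 1 + 2 * j + 3) (j + i) [true])) := by
  rintro ω ⟨d, hN, hA⟩
  by_contra hcon
  rw [Set.mem_union, Set.mem_union, Set.mem_union, Set.mem_iUnion, Set.mem_iUnion] at hcon
  push Not at hcon
  obtain ⟨hcr, hY, hF, hT⟩ := hcon
  apply hcr
  have hd : ∀ k, IsDensity (d k) := fun k => (hN k).1
  have hdn0 : ∀ k w, 0 ≤ d k w := fun k w => (hd k).nonneg w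
  obtain ⟨R, hR⟩ : ∃ R : Lang, R = RR χ κ ω := ⟨_, rfl⟩
  have hYc : |YY χ κ Pr T j ω - d (2 * j) (pre R j)| ≤ (1 / 2 : ℝ) ^ (j + 2 * j + 3) := by
    have := val_close hdn0 hA (2 * j) (j + 2 * j + 3) j [] hY
    rw [List.append_nil, ← hR] at this
    exact this
  have hX : ∀ i b, |XX χ κ Pr T j i b ω - d (2 * j) (pre R (j + i) ++ [b])|
      ≤ (1 / 2 : ℝ) ^ (j + i + 1 + 2 * j + 3) := by
    intro i b
    rw [hR]
    cases b
    · exact val_close hdn0 hA (2 * j) (j + i + 1 + 2 * j + 3) (j + i) [false] (hF i)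
    · exact val_close hdn0 hA (2 * j) (j + i + 1 + 2 * j + 3) (j + i) [true] (hT i)
  have hproc : ∀ i, |proc (bb χ κ j) (XX χ κ Pr T j) (YY χ κ Pr T j) i ω -
      d (2 * j) (pre R (j + i))| ≤ (1 / 2 : ℝ) ^ (j + i + 2 * j + 3) := by
    intro i
    cases i with
    | zero => exact hYc
    | succ i =>
      have h1 := hX i (bb χ κ j i ω)
      have h2 : pre R (j + (i + 1)) = pre R (j + i) ++ [bb χ κ j i ω] := by
        rw [← add_assoc, pre_succ, hR]
        rfl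
      rw [h2]
      exact h1
  have hd0 : d (2 * j) [] ≤ (1 / 2 : ℝ) ^ (2 * j) := (hN (2 * j)).2.1
  have hdn : ∀ n ≤ j, d (2 * j) (pre R n) ≤ (1 / 2 : ℝ) ^ j := by
    intro n hn
    calc d (2 * j) (pre R n) ≤ 2 ^ n * d (2 * j) [] := dens_pre (hd _) R n
      _ ≤ 2 ^ n * (1 / 2 : ℝ) ^ (2 * j) := by gcongr
      _ ≤ 2 ^ j * (1 / 2 : ℝ) ^ (2 * j) := by
          gcongr
          norm_num
      _ = (1 / 2 : ℝ) ^ j := by
          rw [two_mul, pow_add, ← mul_assoc, ← mul_pow]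
          norm_num
  refine ⟨?_, ?_, ?_⟩
  · have h1 := (abs_le.mp hYc).2
    have h2 := hdn j le_rfl
    have h3 : (1 / 2 : ℝ) ^ (j + 2 * j + 3) ≤ (1 / 2 : ℝ) ^ j :=
      pow_le_pow_of_le_one (by norm_num) (by norm_num) (by omega)
    linarith
  · intro i
    have h1 := (abs_le.mp (hX i false)).2
    have h2 := (abs_le.mp (hX i true)).2
    have h3 := (abs_le.mp (hproc i)).1
    have h4 := (hd (2 * j)).avg (pre R (j + i))
    have h5 : (1 / 2 : ℝ) ^ (j + i + 1 + 2 * j + 3) ≤ (1 / 2 : ℝ) ^ (j + i + 2 * j + 3) :=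
      pow_le_pow_of_le_one (by norm_num) (by norm_num) (by omega)
    unfold ee
    linarith
  · obtain ⟨n, hn⟩ := (hN (2 * j)).2.2 R (by rw [hR]; rfl)
    have hlt : j < n := by
      by_contra hle
      have h1 := hdn n (by omega)
      have h2 : (1 / 2 : ℝ) ^ j ≤ (1 / 2 : ℝ) ^ 1 :=
        pow_le_pow_of_le_one (by norm_num) (by norm_num) hj
      norm_num at h2
      norm_num at h1
      linarith
    obtain ⟨i, rfl⟩ := Nat.exists_eq_add_of_lt hlt
    refine ⟨i + 1, ?_⟩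
    have h3 := (abs_le.mp (hproc (i + 1))).1
    rw [show j + (i + 1) = j + i + 1 by omega] at h3
    have h4 : (1 / 2 : ℝ) ^ (j + i + 1 + 2 * j + 3) ≤ (1 / 2 : ℝ) ^ 1 :=
      pow_le_pow_of_le_one (by norm_num) (by norm_num) (by omega)
    rw [pow_one] at h4
    linarith

end NONX_

open NONX_ Pool.Agent.RelZ.NONB_ in
/-- Almost surely, no machine that is fast compared with the keys of the family `κ` has a null
cover of the hidden language or of its complement. -/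
theorem p_NONX_of (hHIT : T_HIT) (hFAIR : Pool.Agent.RelZ.T_FAIR) : T_NONX := by
  intro χ κ Pr T hfast
  rw [ae_iff]
  simp only [not_not]
  obtain ⟨t₀, ht₀⟩ := hfast 8
  obtain ⟨f, hf⟩ : ∃ f : ℕ → ℝ≥0∞, ∀ t, f t = ENNReal.ofReal (1 / ((t : ℝ) + 1) ^ 2) :=
    ⟨_, fun _ => rfl⟩
  have hfs : ∑' t, f t ≠ ∞ := by
    simp only [hf]
    exact hitsum
  have hbound : ∀ j, max 1 t₀ ≤ j →
      coin {ω | ∃ d : ℕ → List Bool → ℝ, IsNullCover d {fun x => xor χ (Hl κ ω x)} ∧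
        Approx (oo ω) Pr T d} ≤
      ENNReal.ofReal (6 * (1 / 2 : ℝ) ^ j) + (f j + (∑' i, f (i + j) + ∑' i, f (i + j))) := by
    intro j hj
    have hj1 : 1 ≤ j := le_trans (le_max_left _ _) hj
    have hj3 : t₀ ≤ j := le_trans (le_max_right _ _) hj
    refine (measure_mono (incl χ κ Pr T j hj1)).trans ?_
    refine (measure_union_le _ _).trans (add_le_add (cross_bound hFAIR χ Pr T j) ?_)
    refine (measure_union_le _ _).trans (add_le_add ?_ ?_)
    · rw [hf]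
      exact hit_bound hHIT χ κ Pr T 8 _ _ j [] (ht₀ j hj3) (by simp; omega)
    · refine (measure_union_le _ _).trans (add_le_add ?_ ?_)
      · refine (measure_iUnion_le _).trans (ENNReal.tsum_le_tsum fun i => ?_)
        rw [add_comm i j, hf]
        exact hit_bound hHIT χ κ Pr T 8 _ _ (j + i) [false]
          (ht₀ _ (by omega)) (by simp; omega)
      · refine (measure_iUnion_le _).trans (ENNReal.tsum_le_tsum fun i => ?_)
        rw [add_comm i j, hf]
        exact hit_bound hHIT χ κ Pr T 8 _ _ (j + i) [true]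
          (ht₀ _ (by omega)) (by simp; omega)
  have hlim : Filter.Tendsto (fun j : ℕ =>
      ENNReal.ofReal (6 * (1 / 2 : ℝ) ^ j) + (f j + (∑' i, f (i + j) + ∑' i, f (i + j))))
      Filter.atTop (nhds 0) := by
    have h1 : Filter.Tendsto (fun j : ℕ => ENNReal.ofReal (6 * (1 / 2 : ℝ) ^ j)) Filter.atTop
        (nhds 0) := by
      have h2 : Filter.Tendsto (fun j : ℕ => 6 * (1 / 2 : ℝ) ^ j) Filter.atTop (nhds (6 * 0)) :=
        (tendsto_pow_atTop_nhds_zero_of_lt_one (by norm_num) (by norm_num)).const_mul 6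
      have h3 := ENNReal.tendsto_ofReal h2
      simpa using h3
    have h4 : Filter.Tendsto f Filter.atTop (nhds 0) :=
      ENNReal.tendsto_atTop_zero_of_tsum_ne_top hfs
    have h5 := ENNReal.tendsto_sum_nat_add f hfs
    simpa using h1.add (h4.add (h5.add h5))
  refine le_antisymm (ge_of_tendsto hlim ?_) zero_le
  filter_upwards [Filter.eventually_ge_atTop (max 1 t₀)] with j hj
  exact hbound j hj

end Pool.Agent.RelJ
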